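import Pool.Agent.Helper86.XE.LowBad

/-!
# XU, leaf L8: the lower bound of `Helper86/XE/LowBad.lean`, uniform in `q`

`LowerU` is the statement of the leaf L1 (`lowerU`).
-/

set_option autoImplicit false

open Polynomial

namespace Pool.Agent.Helper77.XU

open Pool.Agent.Helper84.AA
open Pool.Agent.Helper86.XE
open Pool.Agent.Helper19.AAR (GoodR)

/-- The statement of L1. -/
def LowerU : Prop := ∃ g₀ : ℕ, ∀ q : ℕ, 16 ≤ q → ∀ g ≥ g₀,
    (999 / 1000 : ℝ) ^ g * √2 ^ g * (∏ j ∈ Finset.range g, Ik j) * √q ^ (g * (g + 1) / 2) ≤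
      ((traceSet q g).ncard : ℝ)

theorem trace_ratioU (H : LowerU) : ∃ G : ℕ, 2 ≤ G ∧ ∀ q : ℕ, 16 ≤ q → ∀ n ≥ G,
    ((traceSet q n).ncard : ℝ) ≤ (q : ℝ) ^ (2 * n) * ((traceSet q (n - 1)).ncard : ℝ) := by
  obtain ⟨g₀, hg₀'⟩ := H
  refine ⟨g₀ + 2, by omega, fun q hq n hn => ?_⟩
  have hg₀ := hg₀' q hq
  have hσ := sigma_ge hq
  set σ : ℝ := √(q : ℝ) with hσd
  have hσ0 : (0 : ℝ) < σ := by linarith
  have he : (0 : ℝ) < Real.exp 1 := Real.exp_pos 1
  have he1 : (1 : ℝ) ≤ Real.exp 1 := Real.one_le_exp (by norm_num)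
  obtain ⟨m, rfl⟩ : ∃ m, n = m + 1 := ⟨n - 1, by omega⟩
  rw [Nat.add_sub_cancel]
  have hlow := hg₀ m (by omega)
  have hup := upper_trace (q := q) (g := m + 1) (by omega) (by omega)
  have hexp : (m + 1) * (m + 1 + 1) / 2 = m * (m + 1) / 2 + (m + 1) := by
    have : (m + 1) * (m + 1 + 1) = m * (m + 1) + (m + 1) * 2 := by ring
    rw [this, Nat.add_mul_div_right _ _ (by norm_num)]
  rw [hexp, pow_add (√(q : ℝ)), Finset.prod_range_succ] at hup
  have hP := P_pos m
  set P : ℝ := ∏ j ∈ Finset.range m, Ik j with hPd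
  have hS : 0 < σ ^ (m * (m + 1) / 2) := by positivity
  set S : ℝ := σ ^ (m * (m + 1) / 2) with hSd
  have hI0 := Ik_pos m
  have hI2 := Ik_le_two m
  have hf : (2 * ((m + 1 : ℕ) : ℝ)) ^ (m + 1) / ((m + 1).factorial : ℝ) ≤
      (2 * Real.exp 1) ^ (m + 1) := by
    have h := pow_div_fact_le (n := m + 1) (g := m + 1)
    rw [mul_pow, mul_div_assoc, mul_pow]
    gcongr
  have h1 : ((traceSet q (m + 1)).ncard : ℝ) ≤
      (8 * Real.exp 1 * σ) ^ (m + 1) * (S * P) := by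
    refine hup.trans ?_
    have e1 : 2 * (2 * ((m + 1 : ℕ) : ℝ)) ^ (m + 1) / ((m + 1).factorial : ℝ) =
        2 * ((2 * ((m + 1 : ℕ) : ℝ)) ^ (m + 1) / ((m + 1).factorial : ℝ)) := by ring
    rw [e1]
    calc 2 * ((2 * ((m + 1 : ℕ) : ℝ)) ^ (m + 1) / ((m + 1).factorial : ℝ)) *
          (S * σ ^ (m + 1)) * (P * Ik m)
        ≤ 2 * ((2 * Real.exp 1) ^ (m + 1)) * (S * σ ^ (m + 1)) * (P * 2) := by gcongr
      _ = 4 * ((2 * Real.exp 1) ^ (m + 1) * σ ^ (m + 1)) * (S * P) := by ring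
      _ ≤ 4 ^ (m + 1) * ((2 * Real.exp 1) ^ (m + 1) * σ ^ (m + 1)) * (S * P) := by
          have h4 : (4 : ℝ) ≤ 4 ^ (m + 1) := by
            calc (4 : ℝ) = 4 ^ 1 := by norm_num
              _ ≤ 4 ^ (m + 1) := pow_le_pow_right₀ (by norm_num) (by omega)
          gcongr
      _ = (8 * Real.exp 1 * σ) ^ (m + 1) * (S * P) := by
          rw [← mul_pow, ← mul_pow]
          congr 2
          ring
  have h2 : S * P ≤ ((traceSet q m).ncard : ℝ) := by
    refine le_trans ?_ hlow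
    have h3 : (1 : ℝ) ≤ (999 / 1000 : ℝ) ^ m * √2 ^ m := by
      rw [← mul_pow]
      apply one_le_pow₀
      have : (1.41 : ℝ) ≤ √2 := by
        apply Real.le_sqrt_of_sq_le
        norm_num
      linarith
    calc S * P = 1 * (P * S) := by ring
      _ ≤ ((999 / 1000 : ℝ) ^ m * √2 ^ m) * (P * S) := by gcongr
      _ = _ := by ring
  have hσσ : σ ^ 2 = (q : ℝ) := by
    rw [hσd]
    exact Real.sq_sqrt (Nat.cast_nonneg q)
  have h3 : (8 * Real.exp 1 * σ) ^ (m + 1) ≤ (q : ℝ) ^ (2 * (m + 1)) := by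
    rw [pow_mul]
    apply pow_le_pow_left₀ (by positivity)
    rw [← hσσ]
    have h4 : 8 * Real.exp 1 ≤ σ ^ 3 := by
      have h5 := Real.exp_one_lt_three
      have h6 : (4 : ℝ) ^ 3 ≤ σ ^ 3 := pow_le_pow_left₀ (by norm_num) hσ 3
      linarith
    calc 8 * Real.exp 1 * σ ≤ σ ^ 3 * σ := mul_le_mul_of_nonneg_right h4 hσ0.le
      _ = (σ ^ 2) ^ 2 := by ring
  calc ((traceSet q (m + 1)).ncard : ℝ) ≤ (8 * Real.exp 1 * σ) ^ (m + 1) * (S * P) := h1
    _ ≤ (q : ℝ) ^ (2 * (m + 1)) * ((traceSet q m).ncard : ℝ) :=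
        mul_le_mul h3 h2 (mul_nonneg hS.le hP.le) (by positivity)

/-- L8 with `lowerU` as a hypothesis. -/
theorem bad_lowerU_of (H : LowerU) :
    ∃ G : ℕ, ∀ q : ℕ, 16 ≤ q → ∀ (k : ℕ) (g : Fin k → ℕ) (i : Fin k), G ≤ g i →
    (({h : Fin k → ℤ[X] | ∀ j, h j ∈ traceSet q (g j)}.ncard : ℕ) : ℝ) ≤
      (q : ℝ) ^ (2 * g i) *
      (({h : Fin k → ℤ[X] | (∀ j, h j ∈ traceSet q (g j)) ∧ ¬ GoodR q h}.ncard : ℕ) : ℝ) := by
  classical
  obtain ⟨G, hG2, hGU⟩ := trace_ratioU H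
  refine ⟨G, fun q hq k g i hi => ?_⟩
  have hG := hGU q hq
  have hfin : ∀ n, (traceSet q n).Finite := fun n => traceSet_finite q n
  -- the finsets
  set T : Fin k → Finset ℤ[X] := fun j => (hfin (g j)).toFinset with hT
  set U : Finset ℤ[X] := ((hfin (g i - 1)).toFinset).image (fun h => X * h) with hU
  have hinj : Function.Injective fun h : ℤ[X] => X * h := fun a b hab =>
    mul_left_cancel₀ X_ne_zero hab
  have hUc : (U.card : ℝ) = ((traceSet q (g i - 1)).ncard : ℝ) := by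
    rw [hU, Finset.card_image_of_injective _ hinj, ← Set.ncard_eq_toFinset_card _ (hfin _)]
  have hTc : ∀ j, ((T j).card : ℝ) = ((traceSet q (g j)).ncard : ℝ) := fun j => by
    rw [hT, ← Set.ncard_eq_toFinset_card _ (hfin _)]
  have hall : (({h : Fin k → ℤ[X] | ∀ j, h j ∈ traceSet q (g j)}.ncard : ℕ) : ℝ) =
      ∏ j, ((T j).card : ℝ) := by
    have h1 : {h : Fin k → ℤ[X] | ∀ j, h j ∈ traceSet q (g j)} = ↑(Fintype.piFinset T) := by
      ext h
      rw [Finset.mem_coe, Fintype.mem_piFinset]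
      exact forall_congr' fun j => (Set.Finite.mem_toFinset (hfin _)).symm
    rw [h1, Set.ncard_coe_finset, Fintype.card_piFinset]
    push_cast
    rfl
  have hsub : ((Fintype.piFinset (Function.update T i U) : Finset (Fin k → ℤ[X])) :
      Set (Fin k → ℤ[X])) ⊆
      {h : Fin k → ℤ[X] | (∀ j, h j ∈ traceSet q (g j)) ∧ ¬ GoodR q h} := by
    intro h hh
    rw [Finset.mem_coe, Fintype.mem_piFinset] at hh
    have hi' := hh i
    rw [Function.update_self, hU, Finset.mem_image] at hi'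
    obtain ⟨u, hu, hui⟩ := hi'
    rw [Set.Finite.mem_toFinset] at hu
    have hu' : IsTrace q (g i - 1) u := hu
    refine ⟨fun j => ?_, fun hgood => ?_⟩
    · by_cases hj : j = i
      · subst hj
        rw [← hui]
        have := trace_mul_X hu'
        rwa [Nat.sub_add_cancel (by omega)] at this
      · have := hh j
        rw [Function.update_of_ne hj, hT] at this
        exact (Set.Finite.mem_toFinset (hfin _)).1 this
    · have h1 := hgood.1 i
      rw [← hui] at h1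
      exact not_irred q hu'.1 (by rw [hu'.2.1]; omega) h1
  have hbig : (∏ j, ((Function.update T i U j).card : ℝ)) ≤
      (({h : Fin k → ℤ[X] | (∀ j, h j ∈ traceSet q (g j)) ∧ ¬ GoodR q h}.ncard : ℕ) : ℝ) := by
    have hfinb : {h : Fin k → ℤ[X] | (∀ j, h j ∈ traceSet q (g j)) ∧ ¬ GoodR q h}.Finite := by
      have h1 : {h : Fin k → ℤ[X] | ∀ j, h j ∈ traceSet q (g j)} = ↑(Fintype.piFinset T) := by
        ext h
        rw [Finset.mem_coe, Fintype.mem_piFinset]
        exact forall_congr' fun j => (Set.Finite.mem_toFinset (hfin _)).symm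
      refine Set.Finite.subset (s := {h : Fin k → ℤ[X] | ∀ j, h j ∈ traceSet q (g j)}) ?_
        fun h hh => hh.1
      rw [h1]
      exact Finset.finite_toSet _
    have h2 := Set.ncard_le_ncard hsub hfinb
    rw [Set.ncard_coe_finset, Fintype.card_piFinset] at h2
    exact_mod_cast h2
  have hq0 : (0 : ℝ) ≤ (q : ℝ) ^ (2 * g i) := by positivity
  refine le_trans ?_ (mul_le_mul_of_nonneg_left hbig hq0)
  rw [hall]
  rw [← Finset.mul_prod_erase Finset.univ _ (Finset.mem_univ i),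
    ← Finset.mul_prod_erase Finset.univ (fun j => ((Function.update T i U j).card : ℝ))
      (Finset.mem_univ i)]
  have h3 : ∏ j ∈ Finset.univ.erase i, ((Function.update T i U j).card : ℝ) =
      ∏ j ∈ Finset.univ.erase i, ((T j).card : ℝ) := by
    refine Finset.prod_congr rfl fun j hj => ?_
    rw [Function.update_of_ne (Finset.ne_of_mem_erase hj)]
  rw [h3, Function.update_self, hUc, hTc, ← mul_assoc]
  exact mul_le_mul_of_nonneg_right (hG (g i) hi) (Finset.prod_nonneg fun j _ => Nat.cast_nonneg _)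

end Pool.Agent.Helper77.XU
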