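import Pool.Agent.Helper77.XU.L8
import Pool.Agent.Helper83.XU.L1

/-!
# XU, leaf L8, verbatim
-/

set_option autoImplicit false

open Polynomial

namespace Pool.Agent.Helper86.XU

open Pool.Agent.Helper84.AA
open Pool.Agent.Helper86.XE
open Pool.Agent.Helper19.AAR (GoodR)

/-- L8: the lower bound (XE/LowBad.lean), uniform in `q`. -/
theorem bad_lowerU : ∃ G : ℕ, ∀ q : ℕ, 16 ≤ q → ∀ (k : ℕ) (g : Fin k → ℕ) (i : Fin k), G ≤ g i →
    (({h : Fin k → ℤ[X] | ∀ j, h j ∈ traceSet q (g j)}.ncard : ℕ) : ℝ) ≤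
      (q : ℝ) ^ (2 * g i) *
      (({h : Fin k → ℤ[X] | (∀ j, h j ∈ traceSet q (g j)) ∧ ¬ GoodR q h}.ncard : ℕ) : ℝ) :=
  Pool.Agent.Helper77.XU.bad_lowerU_of lowerU

end Pool.Agent.Helper86.XU
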